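import Mathlib

/-!
# The chord set of the sine sum `g_n`

For every `n ≥ 1` the chord set of `g_n x = ∑_{k=1}^n sin (2 π k x)` on `[0, 1]` is
`[0, 1]` minus the union of the intervals `(k / (n + 1), k / n)`, `1 ≤ k ≤ n`.

Proof. Put `A = π ℓ`, `B = 2 π x - A`, `m = n + 1 / 2`, `S t = ∑ sin (k t)`. Then
`(S (B + A) - S (B - A)) sin ((B - A) / 2) sin ((B + A) / 2)` is
`cos mB cos mA cos (B/2) sin (A/2) + sin mB sin mA sin (B/2) cos (A/2) - sin (A/2) cos (A/2)`.
If `cos (2 m A) > cos A` this is negative by the Cauchy-Schwarz inequality. If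
`cos (2 m A) < cos A`, then `S (2 A) > 0` and the expression is negative for `B = π` or
`B = π - π / m`.
-/

set_option autoImplicit false

open Set

namespace Pool.Agent.Results.MP_174dab_an.ChordSet

/-- The sine sum `g_n`. -/
noncomputable def g (n : ℕ) (x : ℝ) : ℝ := ∑ k ∈ Finset.Icc 1 n, Real.sin (2 * Real.pi * k * x)

/-- The chord set `H(f)` of a function on `[0, 1]`. -/
def chordSet (f : ℝ → ℝ) : Set ℝ := {l | l ∈ Icc (0 : ℝ) 1 ∧ ∃ x ∈ Icc l 1, f (x - l) = f x}

/-- The union `V_n` of the intervals `(k / (n + 1), k / n)`, `1 ≤ k ≤ n`. -/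
def V (n : ℕ) : Set ℝ := ⋃ k ∈ Finset.Icc 1 n, Ioo ((k : ℝ) / (n + 1)) ((k : ℝ) / n)

/-- the sum of the sines of the multiples of `t` -/
noncomputable def S (n : ℕ) (t : ℝ) : ℝ := ∑ k ∈ Finset.Icc 1 n, Real.sin (k * t)

lemma g_eq (n : ℕ) (x : ℝ) : g n x = S n (2 * Real.pi * x) := by
  unfold g S
  apply Finset.sum_congr rfl
  intro k _
  congr 1; ring

lemma S_mul (n : ℕ) (t : ℝ) :
    2 * Real.sin (t / 2) * S n t = Real.cos (t / 2) - Real.cos ((n + 1 / 2) * t) := by
  induction n with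
  | zero =>
    simp only [S]
    simp
    ring_nf
  | succ n ih =>
    have h1 : S (n + 1) t = S n t + Real.sin ((n + 1) * t) := by
      unfold S
      rw [Finset.sum_Icc_succ_top (by omega)]
      push_cast
      rfl
    have h2 : Real.cos ((n + 1 / 2) * t) - Real.cos (((n + 1 : ℕ) + 1 / 2) * t) =
        2 * Real.sin (t / 2) * Real.sin ((n + 1) * t) := by
      have e1 : ((n : ℝ) + 1 / 2) * t = (n + 1) * t - t / 2 := by ring
      have e2 : (((n + 1 : ℕ) : ℝ) + 1 / 2) * t = (n + 1) * t + t / 2 := by push_cast; ring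
      rw [e1, e2, Real.cos_sub, Real.cos_add]
      ring
    rw [h1, mul_add, ih, ← h2]
    ring

lemma S_continuous (n : ℕ) : Continuous (S n) := by
  unfold S
  fun_prop

lemma S_zero (n : ℕ) : S n 0 = 0 := by simp [S]

/-- the main identity -/
lemma main_id (n : ℕ) (A B : ℝ) :
    (S n (B + A) - S n (B - A)) * (Real.sin ((B - A) / 2) * Real.sin ((B + A) / 2)) =
      Real.cos ((n + 1 / 2) * B) * Real.cos ((n + 1 / 2) * A) * Real.cos (B / 2) * Real.sin (A / 2)
      + Real.sin ((n + 1 / 2) * B) * Real.sin ((n + 1 / 2) * A) * Real.sin (B / 2) *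
        Real.cos (A / 2) - Real.sin (A / 2) * Real.cos (A / 2) := by
  have h1 := S_mul n (B + A)
  have h2 := S_mul n (B - A)
  have h3 : (S n (B + A) - S n (B - A)) * (Real.sin ((B - A) / 2) * Real.sin ((B + A) / 2)) =
      ((Real.cos ((B + A) / 2) - Real.cos ((n + 1 / 2) * (B + A))) * Real.sin ((B - A) / 2) -
      (Real.cos ((B - A) / 2) - Real.cos ((n + 1 / 2) * (B - A))) * Real.sin ((B + A) / 2)) / 2 := by
    rw [← h1, ← h2]; ring
  rw [h3]
  have e1 : (B + A) / 2 = B / 2 + A / 2 := by ring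
  have e2 : (B - A) / 2 = B / 2 - A / 2 := by ring
  have e3 : ((n : ℝ) + 1 / 2) * (B + A) = (n + 1 / 2) * B + (n + 1 / 2) * A := by ring
  have e4 : ((n : ℝ) + 1 / 2) * (B - A) = (n + 1 / 2) * B - (n + 1 / 2) * A := by ring
  rw [e1, e2, e3, e4, Real.cos_add, Real.cos_sub, Real.sin_add, Real.sin_sub, Real.cos_add,
    Real.cos_sub]
  have s1 := Real.sin_sq_add_cos_sq (B / 2)
  linear_combination (-Real.sin (A / 2) * Real.cos (A / 2)) * s1

/-- the value at `2 A` -/
lemma S_two (n : ℕ) (A : ℝ) : 2 * Real.sin A * S n (2 * A) =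
    2 * Real.sin (n * A) * Real.sin ((n + 1) * A) := by
  have h := S_mul n (2 * A)
  have e1 : 2 * A / 2 = A := by ring
  have e2 : ((n : ℝ) + 1 / 2) * (2 * A) = (n + 1) * A + n * A := by ring
  have e3 : A = (n + 1) * A - n * A := by ring
  rw [e1, e2] at h
  rw [h]
  nth_rewrite 1 [e3]
  rw [Real.cos_sub, Real.cos_add]
  ring

/-- comparison of `sin (m A)` and `sin (A / 2)` -/
lemma sq_sub (n : ℕ) (A : ℝ) : Real.sin ((n + 1 / 2) * A) ^ 2 - Real.sin (A / 2) ^ 2 =
    Real.sin (n * A) * Real.sin ((n + 1) * A) := by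
  have e1 : (n : ℝ) * A = (n + 1 / 2) * A - A / 2 := by ring
  have e2 : ((n : ℝ) + 1) * A = (n + 1 / 2) * A + A / 2 := by ring
  rw [e1, e2, Real.sin_sub, Real.sin_add]
  have s1 := Real.sin_sq_add_cos_sq (A / 2)
  have s2 := Real.sin_sq_add_cos_sq (((n : ℝ) + 1 / 2) * A)
  linear_combination (-Real.sin ((n + 1 / 2) * A) ^ 2) * s1 + (Real.sin (A / 2) ^ 2) * s2

/-- no chord when `sin (n A) sin ((n + 1) A) < 0` -/
lemma neg_of_neg (n : ℕ) {A B : ℝ} (hA0 : 0 < A) (hAB : A < B) (hB : B < 2 * Real.pi - A)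
    (hs : Real.sin (n * A) * Real.sin ((n + 1) * A) < 0) :
    S n (B + A) - S n (B - A) < 0 := by
  have hpi := Real.pi_pos
  have hsA : 0 < Real.sin (A / 2) := Real.sin_pos_of_pos_of_lt_pi (by linarith) (by linarith)
  have hcA : 0 < Real.cos (A / 2) :=
    Real.cos_pos_of_mem_Ioo ⟨by linarith, by linarith⟩
  have hP1 : 0 < Real.sin ((B - A) / 2) := Real.sin_pos_of_pos_of_lt_pi (by linarith) (by linarith)
  have hP2 : 0 < Real.sin ((B + A) / 2) := Real.sin_pos_of_pos_of_lt_pi (by linarith) (by linarith)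
  have hP : 0 < Real.sin ((B - A) / 2) * Real.sin ((B + A) / 2) := mul_pos hP1 hP2
  have hid := main_id n A B
  have hsq := sq_sub n A
  have hcc : Real.cos (B / 2) ^ 2 < Real.cos (A / 2) ^ 2 := by
    have h1 : Real.cos (A / 2) ^ 2 - Real.cos (B / 2) ^ 2 =
        Real.sin ((B - A) / 2) * Real.sin ((B + A) / 2) := by
      have e1 : (B + A) / 2 = B / 2 + A / 2 := by ring
      have e2 : (B - A) / 2 = B / 2 - A / 2 := by ring
      rw [e1, e2, Real.sin_sub, Real.sin_add]
      have s1 := Real.sin_sq_add_cos_sq (A / 2)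
      have s2 := Real.sin_sq_add_cos_sq (B / 2)
      linear_combination (-Real.cos (A / 2) ^ 2) * s2 + (Real.cos (B / 2) ^ 2) * s1
    linarith
  set sA := Real.sin (A / 2)
  set cA := Real.cos (A / 2)
  set sB := Real.sin (B / 2)
  set cB := Real.cos (B / 2)
  set SA := Real.sin ((n + 1 / 2) * A)
  set CA := Real.cos ((n + 1 / 2) * A)
  set SB := Real.sin ((n + 1 / 2) * B)
  set CB := Real.cos ((n + 1 / 2) * B)
  have r1 : sA ^ 2 + cA ^ 2 = 1 := Real.sin_sq_add_cos_sq _
  have r2 : sB ^ 2 + cB ^ 2 = 1 := Real.sin_sq_add_cos_sq _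
  have r3 : SA ^ 2 + CA ^ 2 = 1 := Real.sin_sq_add_cos_sq _
  have r4 : SB ^ 2 + CB ^ 2 = 1 := Real.sin_sq_add_cos_sq _
  have hlt : SA ^ 2 < sA ^ 2 := by linarith
  have h5 : (CA * cB * sA) ^ 2 + (SA * sB * cA) ^ 2 < (sA * cA) ^ 2 := by
    have h6 : (sA * cA) ^ 2 - ((CA * cB * sA) ^ 2 + (SA * sB * cA) ^ 2) =
        (cA ^ 2 - cB ^ 2) * (sA ^ 2 - SA ^ 2) := by
      have e1 : CA ^ 2 = 1 - SA ^ 2 := by linarith
      have e2 : sB ^ 2 = 1 - cB ^ 2 := by linarith
      have e3 : cA ^ 2 = 1 - sA ^ 2 := by linarith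
      rw [mul_pow, mul_pow, mul_pow, mul_pow, mul_pow, e1, e2, e3]
      ring
    have h7 : 0 < (cA ^ 2 - cB ^ 2) * (sA ^ 2 - SA ^ 2) := mul_pos (by linarith) (by linarith)
    linarith
  have h8 : (CB * (CA * cB * sA) + SB * (SA * sB * cA)) ^ 2 ≤
      (CA * cB * sA) ^ 2 + (SA * sB * cA) ^ 2 := by
    have h9 : (CA * cB * sA) ^ 2 + (SA * sB * cA) ^ 2 =
        (CB * (CA * cB * sA) + SB * (SA * sB * cA)) ^ 2 +
        (SB * (CA * cB * sA) - CB * (SA * sB * cA)) ^ 2 := by
      linear_combination (-((CA * cB * sA) ^ 2 + (SA * sB * cA) ^ 2)) * r4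
    rw [h9]
    have := sq_nonneg (SB * (CA * cB * sA) - CB * (SA * sB * cA))
    linarith
  have h10 : CB * (CA * cB * sA) + SB * (SA * sB * cA) < sA * cA :=
    lt_of_pow_lt_pow_left₀ 2 (by positivity) (h8.trans_lt h5)
  have h11 : (S n (B + A) - S n (B - A)) * (Real.sin ((B - A) / 2) * Real.sin ((B + A) / 2)) < 0 := by
    rw [hid]
    linarith
  by_contra hcon
  push Not at hcon
  have := mul_nonneg hcon hP.le
  linarith

/-- a chord when `j π < n A` and `(n + 1) A < (j + 1) π` -/
lemma exists_zero (n j : ℕ) (hj : j + 1 ≤ n) {A : ℝ} (hA0 : 0 < A) (hA1 : A < Real.pi)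
    (h1 : j * Real.pi < n * A) (h2 : (n + 1) * A < (j + 1) * Real.pi) :
    ∃ B : ℝ, A ≤ B ∧ B ≤ Real.pi ∧ S n (B + A) = S n (B - A) := by
  have hpi := Real.pi_pos
  have hsA : 0 < Real.sin (A / 2) := Real.sin_pos_of_pos_of_lt_pi (by linarith) (by linarith)
  have hcA : 0 < Real.cos (A / 2) :=
    Real.cos_pos_of_mem_Ioo ⟨by linarith, by linarith⟩
  have hn0 : (1 : ℝ) ≤ n := by exact_mod_cast (by omega : 1 ≤ n)
  have hsign : ∀ x : ℝ, j * Real.pi < x → x < (j + 1) * Real.pi → 0 < (-1) ^ j * Real.sin x := by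
    intro x hx1 hx2
    rw [← Real.sin_sub_nat_mul_pi]
    exact Real.sin_pos_of_pos_of_lt_pi (by linarith) (by linarith)
  have hHA : 0 < S n (A + A) - S n (A - A) := by
    rw [sub_self, S_zero, sub_zero, ← two_mul]
    have h3 := S_two n A
    have h4 : 0 < Real.sin A := Real.sin_pos_of_pos_of_lt_pi hA0 hA1
    have h5 := hsign (n * A) h1 (by linarith)
    have h6 := hsign ((n + 1) * A) (by linarith) h2
    have h7 : 0 < Real.sin (n * A) * Real.sin ((n + 1) * A) := by
      have h8 := mul_pos h5 h6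
      have h9 : (-1 : ℝ) ^ j * (-1) ^ j = 1 := by rw [← mul_pow]; simp
      have h10 : (-1) ^ j * Real.sin (n * A) * ((-1) ^ j * Real.sin ((n + 1) * A)) =
          ((-1) ^ j * (-1) ^ j) * (Real.sin (n * A) * Real.sin ((n + 1) * A)) := by ring
      rw [h10, h9, one_mul] at h8
      exact h8
    by_contra hcon
    push Not at hcon
    have h11 : 2 * Real.sin A * S n (2 * A) ≤ 0 := mul_nonpos_of_nonneg_of_nonpos (by linarith) hcon
    nlinarith
  have key : ∃ B : ℝ, A ≤ B ∧ B ≤ Real.pi ∧ S n (B + A) - S n (B - A) ≤ 0 := by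
    by_cases hc : (-1) ^ n * Real.sin ((n + 1 / 2) * A) ≤ 0
    · refine ⟨Real.pi, hA1.le, le_rfl, ?_⟩
      have hid := main_id n A Real.pi
      have e1 : Real.sin ((n + 1 / 2) * Real.pi) = (-1) ^ n := by
        have : ((n : ℝ) + 1 / 2) * Real.pi = Real.pi / 2 + n * Real.pi := by ring
        rw [this, Real.sin_add_nat_mul_pi, Real.sin_pi_div_two, mul_one]
      have e2 : Real.cos ((n + 1 / 2) * Real.pi) = 0 := by
        have : ((n : ℝ) + 1 / 2) * Real.pi = Real.pi / 2 + n * Real.pi := by ring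
        rw [this, Real.cos_add_nat_mul_pi, Real.cos_pi_div_two, mul_zero]
      rw [e1, e2, Real.sin_pi_div_two] at hid
      have hP : 0 < Real.sin ((Real.pi - A) / 2) * Real.sin ((Real.pi + A) / 2) :=
        mul_pos (Real.sin_pos_of_pos_of_lt_pi (by linarith) (by linarith))
          (Real.sin_pos_of_pos_of_lt_pi (by linarith) (by linarith))
      by_contra hcon
      push Not at hcon
      have h3 := mul_pos hcon hP
      rw [hid] at h3
      have h4 : (-1) ^ n * Real.sin ((n + 1 / 2) * A) * 1 * Real.cos (A / 2) ≤ 0 := by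
        rw [mul_one]
        exact mul_nonpos_of_nonpos_of_nonneg hc hcA.le
      have h5 : 0 < Real.sin (A / 2) * Real.cos (A / 2) := mul_pos hsA hcA
      linarith
    · push Not at hc
      have hm : (0 : ℝ) < n + 1 / 2 := by linarith
      -- parity
      have hjn : j + 2 ≤ n := by
        by_contra hcon
        have hj2 : n = j + 1 := by omega
        have h3 := hsign ((n + 1 / 2) * A) (by nlinarith) (by nlinarith)
        have h4 : (-1 : ℝ) ^ n = - (-1) ^ j := by rw [hj2, pow_succ]; ring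
        rw [h4] at hc
        linarith
      have hjn' : (j : ℝ) + 2 ≤ n := by exact_mod_cast hjn
      have hB : A < Real.pi - Real.pi / (n + 1 / 2) := by
        have h3 : (n + 1) * A < (n - 1) * Real.pi := by nlinarith
        have h4 : A < (n - 1) * Real.pi / (n + 1) := by
          rw [lt_div_iff₀ (by linarith)]; linarith
        refine h4.trans_le ?_
        rw [div_le_iff₀ (by linarith)]
        have h5 : (Real.pi - Real.pi / (n + 1 / 2)) * (n + 1) =
            (n + 1) * Real.pi - Real.pi * ((n + 1) / (n + 1 / 2)) := by ring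
        rw [h5]
        have h6 : ((n : ℝ) + 1) / (n + 1 / 2) ≤ 2 := by
          rw [div_le_iff₀ hm]; linarith
        nlinarith
      have hB2 : Real.pi - Real.pi / (n + 1 / 2) < Real.pi := by
        have : 0 < Real.pi / (n + 1 / 2) := by positivity
        linarith
      refine ⟨Real.pi - Real.pi / (n + 1 / 2), hB.le, hB2.le, ?_⟩
      set B : ℝ := Real.pi - Real.pi / (n + 1 / 2) with hBdef
      have hid := main_id n A B
      have e0 : ((n : ℝ) + 1 / 2) * B = Real.pi / 2 + n * Real.pi - Real.pi := by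
        rw [hBdef]; field_simp; ring
      have e1 : Real.sin ((n + 1 / 2) * B) = -(-1) ^ n := by
        rw [e0, Real.sin_sub_pi, Real.sin_add_nat_mul_pi, Real.sin_pi_div_two, mul_one]
      have e2 : Real.cos ((n + 1 / 2) * B) = 0 := by
        rw [e0, Real.cos_sub_pi, Real.cos_add_nat_mul_pi, Real.cos_pi_div_two, mul_zero, neg_zero]
      rw [e1, e2] at hid
      have hP : 0 < Real.sin ((B - A) / 2) * Real.sin ((B + A) / 2) :=
        mul_pos (Real.sin_pos_of_pos_of_lt_pi (by linarith) (by linarith))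
          (Real.sin_pos_of_pos_of_lt_pi (by linarith) (by linarith))
      have hsB : 0 < Real.sin (B / 2) :=
        Real.sin_pos_of_pos_of_lt_pi (by linarith) (by linarith)
      by_contra hcon
      push Not at hcon
      have h3 := mul_pos hcon hP
      rw [hid] at h3
      have h4 : 0 < (-1) ^ n * Real.sin ((n + 1 / 2) * A) * Real.sin (B / 2) * Real.cos (A / 2) :=
        mul_pos (mul_pos hc hsB) hcA
      have h5 : 0 < Real.sin (A / 2) * Real.cos (A / 2) := mul_pos hsA hcA
      linarith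
  obtain ⟨B, hB1, hB2, hB3⟩ := key
  have hcont : ContinuousOn (fun B => S n (B + A) - S n (B - A)) (Icc A B) :=
    (((S_continuous n).comp (continuous_id.add continuous_const)).sub
      ((S_continuous n).comp (continuous_id.sub continuous_const))).continuousOn
  obtain ⟨C, hC, hC0⟩ := intermediate_value_Icc' hB1 hcont ⟨hB3, hHA.le⟩
  exact ⟨C, hC.1, hC.2.trans hB2, sub_eq_zero.1 hC0⟩

/-- the chord set of `g n` -/
lemma chordSet_eq (n : ℕ) (hn : 1 ≤ n) : chordSet (g n) = Icc 0 1 \ V n := by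
  have hpi := Real.pi_pos
  have hn0 : (1 : ℝ) ≤ n := by exact_mod_cast hn
  ext l
  constructor
  · rintro ⟨⟨hl0, hl1⟩, x, ⟨hx1, hx2⟩, hx⟩
    refine ⟨⟨hl0, hl1⟩, fun hV => ?_⟩
    unfold V at hV
    simp only [mem_iUnion, Finset.mem_Icc] at hV
    obtain ⟨k, ⟨hk1, hk2⟩, hk3, hk4⟩ := hV
    have hk1' : (1 : ℝ) ≤ k := by exact_mod_cast hk1
    have hk2' : (k : ℝ) ≤ n := by exact_mod_cast hk2
    rw [div_lt_iff₀ (by linarith)] at hk3
    rw [lt_div_iff₀ (by linarith)] at hk4
    have hl0 : 0 < l := by nlinarith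
    have hl1 : l < 1 := by nlinarith
    set A : ℝ := Real.pi * l with hA
    have hA0 : 0 < A := by positivity
    have hA1 : A < Real.pi := by nlinarith
    have hk3' : k * Real.pi < (n + 1) * A := by rw [hA]; nlinarith
    have hk4' : n * A < k * Real.pi := by rw [hA]; nlinarith
    obtain ⟨j, rfl⟩ : ∃ j, k = j + 1 := ⟨k - 1, by omega⟩
    push_cast at hk3' hk4' hk1' hk2'
    have hneg : Real.sin (n * A) * Real.sin ((n + 1) * A) < 0 := by
      have h1 : 0 < (-1) ^ j * Real.sin (n * A) := by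
        rw [← Real.sin_sub_nat_mul_pi]
        exact Real.sin_pos_of_pos_of_lt_pi (by nlinarith) (by linarith)
      have h2 : 0 < (-1) ^ (j + 1) * Real.sin ((n + 1) * A) := by
        rw [← Real.sin_sub_nat_mul_pi]
        push_cast
        exact Real.sin_pos_of_pos_of_lt_pi (by nlinarith) (by nlinarith)
      have h3 := mul_pos h1 h2
      have h4 : (-1) ^ j * Real.sin (n * A) * ((-1) ^ (j + 1) * Real.sin ((n + 1) * A)) =
          ((-1) ^ j * (-1) ^ j) * (-(Real.sin (n * A) * Real.sin ((n + 1) * A))) := by ring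
      have h9 : (-1 : ℝ) ^ j * (-1) ^ j = 1 := by rw [← mul_pow]; simp
      rw [h4, h9, one_mul] at h3
      linarith
    have hS2 : S n (2 * A) < 0 := by
      have h3 := S_two n A
      have h4 : 0 < Real.sin A := Real.sin_pos_of_pos_of_lt_pi hA0 hA1
      by_contra hcon
      push Not at hcon
      have : 0 ≤ 2 * Real.sin A * S n (2 * A) := by positivity
      nlinarith
    rw [g_eq, g_eq] at hx
    rcases eq_or_lt_of_le hx1 with h | h
    · -- x = l
      rw [← h, sub_self, mul_zero, S_zero] at hx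
      have : 2 * Real.pi * l = 2 * A := by rw [hA]; ring
      rw [this] at hx
      linarith
    · rcases eq_or_lt_of_le hx2 with h' | h'
      · -- x = 1
        rw [h'] at hx
        have e1 : S n (2 * Real.pi * (1 - l)) = -S n (2 * A) := by
          unfold S
          rw [← Finset.sum_neg_distrib]
          apply Finset.sum_congr rfl
          intro k _
          have : (k : ℝ) * (2 * Real.pi * (1 - l)) = (k : ℝ) * (2 * Real.pi) - k * (2 * A) := by
            rw [hA]; ring
          rw [this, Real.sin_nat_mul_two_pi_sub]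
        have e2 : S n (2 * Real.pi * 1) = 0 := by
          unfold S
          apply Finset.sum_eq_zero
          intro k _
          have : (k : ℝ) * (2 * Real.pi * 1) = ((2 * k : ℕ) : ℝ) * Real.pi := by push_cast; ring
          rw [this, Real.sin_nat_mul_pi]
        rw [e1, e2] at hx
        linarith
      · have h5 := neg_of_neg n (A := A) (B := 2 * Real.pi * x - A) hA0
          (by rw [hA]; nlinarith) (by nlinarith) hneg
        have e1 : 2 * Real.pi * x - A + A = 2 * Real.pi * x := by ring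
        have e2 : 2 * Real.pi * x - A - A = 2 * Real.pi * (x - l) := by rw [hA]; ring
        rw [e1, e2, hx] at h5
        linarith
  · rintro ⟨⟨hl0, hl1⟩, hV⟩
    refine ⟨⟨hl0, hl1⟩, ?_⟩
    have htriv : S n (2 * Real.pi * l) = 0 → ∃ x ∈ Icc l 1, g n (x - l) = g n x := by
      intro h
      refine ⟨l, ⟨le_rfl, hl1⟩, ?_⟩
      rw [g_eq, g_eq, h, sub_self, mul_zero, S_zero]
    rcases eq_or_lt_of_le hl0 with h0 | h0
    · apply htriv
      rw [← h0, mul_zero, S_zero]
    rcases eq_or_lt_of_le hl1 with h1 | h1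
    · apply htriv
      rw [h1]
      unfold S
      apply Finset.sum_eq_zero
      intro k _
      have : (k : ℝ) * (2 * Real.pi * 1) = ((2 * k : ℕ) : ℝ) * Real.pi := by push_cast; ring
      rw [this, Real.sin_nat_mul_pi]
    set j : ℕ := ⌊n * l⌋₊ with hj
    have hj1 : (j : ℝ) ≤ n * l := Nat.floor_le (by positivity)
    have hj2 : n * l < j + 1 := Nat.lt_floor_add_one _
    have hjn : j + 1 ≤ n := by
      have : (j : ℝ) < n := by nlinarith
      exact_mod_cast this
    have hj3 : (n + 1) * l ≤ j + 1 := by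
      by_contra hcon
      push Not at hcon
      apply hV
      unfold V
      simp only [mem_iUnion, Finset.mem_Icc]
      refine ⟨j + 1, ⟨by omega, hjn⟩, ?_, ?_⟩
      · push_cast
        rw [div_lt_iff₀ (by linarith)]; linarith
      · push_cast
        rw [lt_div_iff₀ (by linarith)]; linarith
    set A : ℝ := Real.pi * l with hA
    have hA0 : 0 < A := by positivity
    have hA1 : A < Real.pi := by nlinarith
    have h2A : 2 * Real.pi * l = 2 * A := by rw [hA]; ring
    have hsinA : 0 < Real.sin A := Real.sin_pos_of_pos_of_lt_pi hA0 hA1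
    rcases eq_or_lt_of_le hj1 with h3 | h3
    · apply htriv
      rw [h2A]
      have h4 := S_two n A
      have h5 : Real.sin (n * A) = 0 := by
        have : (n : ℝ) * A = j * Real.pi := by rw [hA, h3]; ring
        rw [this, Real.sin_nat_mul_pi]
      rw [h5, mul_zero, zero_mul] at h4
      rcases mul_eq_zero.1 h4 with h6 | h6
      · exact absurd h6 (by positivity)
      · exact h6
    rcases eq_or_lt_of_le hj3 with h3' | h3'
    · apply htriv
      rw [h2A]
      have h4 := S_two n A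
      have h5 : Real.sin ((n + 1) * A) = 0 := by
        have : ((n : ℝ) + 1) * A = ((j + 1 : ℕ) : ℝ) * Real.pi := by
          push_cast
          rw [← h3', hA]; ring
        rw [this, Real.sin_nat_mul_pi]
      rw [h5, mul_zero] at h4
      rcases mul_eq_zero.1 h4 with h6 | h6
      · exact absurd h6 (by positivity)
      · exact h6
    obtain ⟨B, hB1, hB2, hB3⟩ := exists_zero n j hjn hA0 hA1 (by rw [hA]; nlinarith)
      (by rw [hA]; nlinarith)
    refine ⟨(B + A) / (2 * Real.pi), ⟨?_, ?_⟩, ?_⟩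
    · rw [le_div_iff₀ (by positivity)]
      have : l * (2 * Real.pi) = A + A := by rw [hA]; ring
      linarith
    · rw [div_le_iff₀ (by positivity)]
      linarith
    · rw [g_eq, g_eq]
      have e1 : 2 * Real.pi * ((B + A) / (2 * Real.pi)) = B + A := by field_simp
      have e2 : 2 * Real.pi * ((B + A) / (2 * Real.pi) - l) = B - A := by
        rw [mul_sub, e1, hA]; ring
      rw [e1, e2, hB3]

/-- **Main result.** For every `n ≥ 1` the function `g_n` has a horizontal chord of length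
`l ∈ [0, 1]` exactly when `l` is not in `V_n`; equivalently `[0, ∞) \ H(g_n) = V_n ∪ (1, ∞)`. -/
theorem result (n : ℕ) (hn : 1 ≤ n) :
    chordSet (g n) = Icc 0 1 \ V n ∧ Ici 0 \ chordSet (g n) = V n ∪ Ioi 1 := by
  refine ⟨chordSet_eq n hn, ?_⟩
  rw [chordSet_eq n hn]
  have hn0 : (1 : ℝ) ≤ n := by exact_mod_cast hn
  have hsub : V n ⊆ Icc 0 1 := by
    intro l hV
    unfold V at hV
    simp only [mem_iUnion, Finset.mem_Icc] at hV
    obtain ⟨k, ⟨hk1, hk2⟩, hk3, hk4⟩ := hV
    have hk2' : (k : ℝ) ≤ n := by exact_mod_cast hk2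
    have h1 : (0 : ℝ) ≤ (k : ℝ) / (n + 1) := by positivity
    have h2 : (k : ℝ) / n ≤ 1 := by rw [div_le_one (by linarith)]; exact hk2'
    exact ⟨by linarith, by linarith⟩
  ext l
  simp only [mem_sdiff, mem_Ici, mem_Icc, mem_union, mem_Ioi]
  constructor
  · rintro ⟨h1, h2⟩
    by_cases h3 : l ∈ V n
    · exact Or.inl h3
    · right
      by_contra h4
      exact h2 ⟨⟨h1, not_lt.1 h4⟩, h3⟩
  · rintro (h | h)
    · exact ⟨(hsub h).1, fun h' => h'.2 h⟩
    · exact ⟨by linarith, fun h' => by linarith [h'.1.2]⟩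

end Pool.Agent.Results.MP_174dab_an.ChordSet
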